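import Pool.Agent.Helper27.NB.Defs
import Pool.Agent.Helper78.NF.RootAll

/-!
# B3: a block used by the result never gets ripe
-/

set_option autoImplicit false

namespace Pool.Agent.Helper78.NB

open Pool.Agent.Helper19.NF (Prog obs see val CF)
open Pool.Agent.Helper27.NB
open Pool.Agent.Helper78.NF (chg chg_val chg_top pick pick_mem outputs_unique step_final)

/-! ## Runs -/

section prog

variable {C W Z : Type} {σ S : ℕ}

/-- changing the contents of cells which are not queried does not change the computation -/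
theorem iter_congr (P : Prog C W Z σ S) (I J : C → W) (q : Fin S) (hIJ : ∀ c, P.Asks I q c → I c = J c) (j : ℕ) :
    (P.step J)^[j] q = (P.step I)^[j] q := by
  induction j with
  | zero => rfl
  | succ j ih =>
    rw [Function.iterate_succ_apply', Function.iterate_succ_apply', ih]
    rcases h : P.act ((P.step I)^[j] q) with ⟨c, next⟩ | z
    · have hc := hIJ c ⟨j, next, h⟩
      unfold Prog.step at h ⊢
      rw [h]
      simp only [Sum.elim_inl]
      rw [hc]
    · rw [step_final P J _ z h, step_final P I _ z h]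

theorem obs_congr (P : Prog C W Z σ S) (I J : C → W) (q : Fin S) (hIJ : ∀ c, P.Asks I q c → I c = J c) :
    obs P J q = obs P I q := by
  funext j
  unfold obs
  rw [iter_congr P I J q hIJ j]

theorem outputs_congr (P : Prog C W Z σ S) (I J : C → W) (q : Fin S) (hIJ : ∀ c, P.Asks I q c → I c = J c)
    {z : Z} (h : P.Outputs I q z) : P.Outputs J q z := by
  obtain ⟨j, hj⟩ := h
  refine ⟨j, ?_⟩
  rw [iter_congr P I J q hIJ j]
  exact hj

theorem asks_congr (P : Prog C W Z σ S) (I J : C → W) (q : Fin S) (hIJ : ∀ c, P.Asks I q c → I c = J c) (c : C) :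
    P.Asks J q c ↔ P.Asks I q c := by
  unfold Prog.Asks
  constructor
  · rintro ⟨j, next, h⟩
    rw [iter_congr P I J q hIJ j] at h
    exact ⟨j, next, h⟩
  · rintro ⟨j, next, h⟩
    refine ⟨j, next, ?_⟩
    rw [iter_congr P I J q hIJ j]
    exact h

theorem obs_eq_inl (P : Prog C W Z σ S) (I : C → W) (q : Fin S) (c : C) :
    (∃ j, obs P I q j = Sum.inl c) ↔ P.Asks I q c := by
  unfold Prog.Asks obs see
  constructor
  · rintro ⟨j, h⟩
    rcases h2 : P.act ((P.step I)^[j] q) with ⟨c', next⟩ | z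
    · rw [h2] at h
      have : c' = c := Sum.inl.inj h
      subst this
      exact ⟨j, next, h2⟩
    · rw [h2] at h
      exact absurd h (by simp)
  · rintro ⟨j, next, h⟩
    refine ⟨j, ?_⟩
    rw [h]
    rfl

end prog

/-! ## The number of the symbols of a block which are read -/

section rd

variable {B Λ Z : Type} [Finite Λ]

/-- the symbols of the block read before the time `t` -/
def rset (o : ℕ → (B × Λ) ⊕ Z) (b : B) (t : ℕ) : Set Λ := {l : Λ | ∃ j < t, o j = Sum.inl (b, l)}

theorem rd_eq (o : ℕ → (B × Λ) ⊕ Z) (b : B) (t : ℕ) : rd o b t = (rset o b t).ncard := rfl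

theorem rset_mono (o : ℕ → (B × Λ) ⊕ Z) (b : B) {t t' : ℕ} (h : t ≤ t') : rset o b t ⊆ rset o b t' := by
  rintro l ⟨j, hj, e⟩
  exact ⟨j, lt_of_lt_of_le hj h, e⟩

theorem rd_le (a : ℕ) (o : ℕ → (B × Λ) ⊕ Z) (b : B) (h : ∀ t, ¬ Rip a o b t) (t : ℕ) : rd o b t ≤ a := by
  induction t with
  | zero =>
    have : rset o b 0 = ∅ := by
      ext l
      constructor
      · rintro ⟨j, hj, _⟩
        omega
      · intro hl
        exact absurd hl (Set.notMem_empty l)
    rw [rd_eq, this, Set.ncard_empty]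
    exact Nat.zero_le _
  | succ t ih =>
    by_cases hnew : New o b t
    · have hne : rd o b t ≠ a := fun e => h t ⟨hnew, e⟩
      obtain ⟨l, hl, _⟩ := hnew
      have hsub : rset o b (t + 1) ⊆ insert l (rset o b t) := by
        rintro l' ⟨j, hj, e⟩
        rcases Nat.lt_succ_iff_lt_or_eq.mp hj with hj' | hj'
        · exact Set.mem_insert_of_mem _ ⟨j, hj', e⟩
        · subst hj'
          rw [hl] at e
          have := Sum.inl.inj e
          rw [Prod.mk.injEq] at this
          rw [← this.2]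
          exact Set.mem_insert _ _
      have h1 : rd o b (t + 1) ≤ rd o b t + 1 := by
        rw [rd_eq, rd_eq]
        exact (Set.ncard_le_ncard hsub (Set.toFinite _)).trans (Set.ncard_insert_le _ _)
      omega
    · have hsub : rset o b (t + 1) ⊆ rset o b t := by
        rintro l' ⟨j, hj, e⟩
        rcases Nat.lt_succ_iff_lt_or_eq.mp hj with hj' | hj'
        · exact ⟨j, hj', e⟩
        · subst hj'
          by_contra hno
          exact hnew ⟨l', e, fun i hi e' => hno ⟨i, hi, e'⟩⟩
      refine le_trans ?_ ih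
      rw [rd_eq, rd_eq]
      exact Set.ncard_le_ncard hsub (Set.toFinite _)

theorem all_read_le (a : ℕ) (o : ℕ → (B × Λ) ⊕ Z) (b : B) (h : ∀ t, ¬ Rip a o b t) :
    {l : Λ | ∃ j, o j = Sum.inl (b, l)}.ncard ≤ a := by
  have hfin : ∃ T, {l : Λ | ∃ j, o j = Sum.inl (b, l)} ⊆ rset o b T := by
    have h1 : ∀ l : Λ, ∃ T, l ∈ {l : Λ | ∃ j, o j = Sum.inl (b, l)} → l ∈ rset o b T := by
      intro l
      by_cases hl : ∃ j, o j = Sum.inl (b, l)
      · obtain ⟨j, hj⟩ := hl
        exact ⟨j + 1, fun _ => ⟨j, Nat.lt_succ_self j, hj⟩⟩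
      · exact ⟨0, fun hl' => absurd hl' hl⟩
    choose f hf using h1
    obtain ⟨T, hT⟩ : ∃ T, ∀ l, f l ≤ T := by
      obtain ⟨T, hT⟩ := (Set.finite_range f).bddAbove
      exact ⟨T, fun l => hT (Set.mem_range_self l)⟩
    exact ⟨T, fun l hl => rset_mono o b (hT l) (hf l hl)⟩
  obtain ⟨T, hT⟩ := hfin
  exact (Set.ncard_le_ncard hT (Set.toFinite _)).trans (rd_le a o b h T)

end rd

/-! ## Blocks -/

section hide

variable {Λ F W : Type} [Fintype Λ] [Finite F] {ρ h : ℕ}

theorem exists_fill [Finite W] (H : Hide Λ F W ρ h) (X : Finset Λ) (hX : X.card = h) (y0 : Λ → F) (w : W)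
    (r : Fin ρ) : ∃ y : Λ → F, (∀ l, l ∉ X → y l = y0 l) ∧ H.dec y = w ∧ H.res X y = r := by
  classical
  let α := {y : Λ → F // ∀ l, l ∉ X → y l = y0 l}
  let f : α → W × Fin ρ := fun y => (H.dec y.1, H.res X y.1)
  have hinj : Function.Injective f := by
    intro y y' e
    have e1 : H.dec y.1 = H.dec y'.1 := congrArg Prod.fst e
    have e2 : H.res X y.1 = H.res X y'.1 := congrArg Prod.snd e
    apply Subtype.ext
    apply H.inj X hX y.1 y'.1 _ e1 e2
    intro l hl
    rw [y.2 l hl, y'.2 l hl]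
  have hcard : Nat.card (W × Fin ρ) ≤ Nat.card α := by
    have h1 : Nat.card (W × Fin ρ) = Nat.card F ^ h := by
      rw [Nat.card_prod, Nat.card_eq_fintype_card (α := Fin ρ), Fintype.card_fin, mul_comm]
      exact H.card
    have h2 : Nat.card (X → F) = Nat.card F ^ h := by
      rw [Nat.card_fun, Nat.card_eq_fintype_card (α := X), Fintype.card_coe, hX]
    rw [h1, ← h2]
    apply Nat.card_le_card_of_injective
      (fun u : X → F => (⟨fun l => if hl : l ∈ X then u ⟨l, hl⟩ else y0 l, fun l hl => dif_neg hl⟩ : α))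
    intro u u' e
    funext l
    have := congrFun (congrArg Subtype.val e) l.1
    simpa [l.2] using this
  have hbij := hinj.bijective_of_nat_card_le hcard
  obtain ⟨y, hy⟩ := hbij.2 (w, r)
  exact ⟨y.1, y.2, congrArg Prod.fst hy, congrArg Prod.snd hy⟩

open Classical in
/-- the block with the same symbols outside `X` and the same residue, and with the word `w` -/
noncomputable def newblk (H : Hide Λ F W ρ h) (X : Finset Λ) (y0 : Λ → F) (w : W) : Λ → F :=
  if hh : ∃ y : Λ → F, (∀ l, l ∉ X → y l = y0 l) ∧ H.dec y = w ∧ H.res X y = H.res X y0 then hh.choose else y0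

theorem newblk_spec [Finite W] (H : Hide Λ F W ρ h) (X : Finset Λ) (hX : X.card = h) (y0 : Λ → F) (w : W) :
    (∀ l, l ∉ X → newblk H X y0 w l = y0 l) ∧ H.dec (newblk H X y0 w) = w ∧
      H.res X (newblk H X y0 w) = H.res X y0 := by
  have hh := exists_fill H X hX y0 w (H.res X y0)
  unfold newblk
  rw [dif_pos hh]
  exact hh.choose_spec

open Classical in
/-- a set of `h` places outside `Q`, if there is one -/
noncomputable def pickX (h : ℕ) (Q : Set Λ) : Finset Λ :=
  if hh : ∃ X : Finset Λ, X.card = h ∧ ∀ l ∈ X, l ∉ Q then hh.choose else ∅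

theorem pickX_spec {a h : ℕ} (hah : a + h = Fintype.card Λ) (Q : Set Λ) (hQ : Q.ncard ≤ a) :
    (pickX h Q).card = h ∧ ∀ l ∈ pickX h Q, l ∉ Q := by
  classical
  have hh : ∃ X : Finset Λ, X.card = h ∧ ∀ l ∈ X, l ∉ Q := by
    have h1 : h ≤ (Finset.univ.filter (fun l : Λ => l ∉ Q)).card := by
      have h2 : (Finset.univ.filter (fun l : Λ => l ∈ Q)).card +
          (Finset.univ.filter (fun l : Λ => ¬ l ∈ Q)).card = Fintype.card Λ := by
        rw [Finset.card_filter_add_card_filter_not, Finset.card_univ]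
      have h3 : (Finset.univ.filter (fun l : Λ => l ∈ Q)).card = Q.ncard := by
        rw [← Set.ncard_coe_finset]
        congr 1
        ext l
        simp
      omega
    obtain ⟨X, hX1, hX2⟩ := Finset.exists_subset_card_eq h1
    exact ⟨X, hX2, fun l hl => (Finset.mem_filter.mp (hX1 hl)).2⟩
  unfold pickX
  rw [dif_pos hh]
  exact hh.choose_spec

end hide

/-! ## The root -/

section root

variable {U D B Λ F Z : Type} [Fintype D] [AddCommGroup B] [Fintype Λ] {σ S ρ h a : ℕ}

/-- the directions in which the block below the result never gets ripe -/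
def missD (H : Hide Λ F (D → B) ρ h) (a : ℕ) (g : D → Equiv.Perm U) (x0 : U → B) (m : ℕ)
    (P : Prog (B × Λ) F Z σ S) (q : Fin S) (w : U) (J : B × Λ → F) : Set D :=
  {c | ∀ t, ¬ Rip a (obs P J q) (val g x0 (wd H J) m (g c w)) t}

/-- the block which is changed -/
noncomputable def blk [Nonempty D] (H : Hide Λ F (D → B) ρ h) (a : ℕ) (g : D → Equiv.Perm U) (x0 : U → B) (m : ℕ)
    (P : Prog (B × Λ) F Z σ S) (q : Fin S) (w : U) (J : B × Λ → F) : B :=
  val g x0 (wd H J) m (g (pick (missD H a g x0 m P q w J)) w)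

/-- the symbols of the block which are read -/
def rdset [Nonempty D] (H : Hide Λ F (D → B) ρ h) (a : ℕ) (g : D → Equiv.Perm U) (x0 : U → B) (m : ℕ)
    (P : Prog (B × Λ) F Z σ S) (q : Fin S) (w : U) (J : B × Λ → F) : Set Λ :=
  {l | ∃ j, obs P J q j = Sum.inl (blk H a g x0 m P q w J, l)}

open Classical in
/-- the changed input -/
noncomputable def mv [Nonempty D] (H : Hide Λ F (D → B) ρ h) (a : ℕ) (g : D → Equiv.Perm U) (x0 : U → B) (m : ℕ)
    (P : Prog (B × Λ) F Z σ S) (q : Fin S) (w : U) (x : (B × Λ → F) × B) : B × Λ → F :=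
  fun c => if c.1 = blk H a g x0 m P q w x.1 then
    newblk H (pickX h (rdset H a g x0 m P q w x.1)) (fun l => x.1 (c.1, l))
      (fun d => if d = pick (missD H a g x0 m P q w x.1) then wd H x.1 c.1 d + x.2 else wd H x.1 c.1 d) c.2
    else x.1 c

variable [Nonempty D] [Finite B] [Finite F]

theorem mv_facts (H : Hide Λ F (D → B) ρ h) (hah : a + h = Fintype.card Λ) (g : D → Equiv.Perm U) (x0 : U → B)
    (m : ℕ) (P : Prog (B × Λ) F Z σ S) (q : Fin S) (w : U) (x : (B × Λ → F) × B)
    (hCF : CF g x0 (m + 1) (wd H x.1))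
    (hm : pick (missD H a g x0 m P q w x.1) ∈ missD H a g x0 m P q w x.1) :
    (pickX h (rdset H a g x0 m P q w x.1)).card = h ∧
    (∀ c, P.Asks x.1 q c → x.1 c = mv H a g x0 m P q w x c) ∧
    wd H (mv H a g x0 m P q w x) =
      chg g x0 m (g (pick (missD H a g x0 m P q w x.1)) w) (pick (missD H a g x0 m P q w x.1)) (wd H x.1, x.2) ∧
    (∀ c, ¬ (c.1 = blk H a g x0 m P q w x.1 ∧ c.2 ∈ pickX h (rdset H a g x0 m P q w x.1)) →
      mv H a g x0 m P q w x c = x.1 c) ∧
    H.res (pickX h (rdset H a g x0 m P q w x.1)) (fun l => mv H a g x0 m P q w x (blk H a g x0 m P q w x.1, l)) =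
      H.res (pickX h (rdset H a g x0 m P q w x.1)) (fun l => x.1 (blk H a g x0 m P q w x.1, l)) := by
  classical
  have hle : (rdset H a g x0 m P q w x.1).ncard ≤ a := all_read_le a (obs P x.1 q) _ hm
  obtain ⟨hX1, hX2⟩ := pickX_spec hah (rdset H a g x0 m P q w x.1) hle
  have hspec := newblk_spec H (pickX h (rdset H a g x0 m P q w x.1)) hX1
    (fun l => x.1 (blk H a g x0 m P q w x.1, l))
    (fun d => if d = pick (missD H a g x0 m P q w x.1) then wd H x.1 (blk H a g x0 m P q w x.1) d + x.2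
      else wd H x.1 (blk H a g x0 m P q w x.1) d)
  obtain ⟨s1, s2, s3⟩ := hspec
  have hon : ∀ l, mv H a g x0 m P q w x (blk H a g x0 m P q w x.1, l) =
      newblk H (pickX h (rdset H a g x0 m P q w x.1)) (fun l => x.1 (blk H a g x0 m P q w x.1, l))
        (fun d => if d = pick (missD H a g x0 m P q w x.1) then wd H x.1 (blk H a g x0 m P q w x.1) d + x.2
          else wd H x.1 (blk H a g x0 m P q w x.1) d) l := by
    intro l
    unfold mv
    rw [if_pos rfl]
  have hoff : ∀ b l, b ≠ blk H a g x0 m P q w x.1 → mv H a g x0 m P q w x (b, l) = x.1 (b, l) := by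
    intro b l hb
    unfold mv
    rw [if_neg hb]
  have hoff2 : ∀ c : B × Λ, ¬ (c.1 = blk H a g x0 m P q w x.1 ∧ c.2 ∈ pickX h (rdset H a g x0 m P q w x.1)) →
      mv H a g x0 m P q w x c = x.1 c := by
    rintro ⟨b, l⟩ hc
    by_cases hb : b = blk H a g x0 m P q w x.1
    · subst hb
      rw [hon]
      exact s1 l (fun hl => hc ⟨rfl, hl⟩)
    · exact hoff b l hb
  refine ⟨hX1, ?_, ?_, hoff2, ?_⟩
  · intro c hc
    refine (hoff2 c ?_).symm
    rintro ⟨h1, h2⟩
    apply hX2 _ h2
    obtain ⟨j, hj⟩ := (obs_eq_inl P x.1 q c).mpr hc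
    refine ⟨j, ?_⟩
    rw [hj, ← h1]
  · funext b d
    by_cases hb : b = blk H a g x0 m P q w x.1
    · subst hb
      have e1 : wd H (mv H a g x0 m P q w x) (blk H a g x0 m P q w x.1) =
          (fun d => if d = pick (missD H a g x0 m P q w x.1) then wd H x.1 (blk H a g x0 m P q w x.1) d + x.2
            else wd H x.1 (blk H a g x0 m P q w x.1) d) := by
        exact (congrArg H.dec (funext hon)).trans s2
      rw [e1]
      unfold chg
      by_cases hd : d = pick (missD H a g x0 m P q w x.1)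
      · rw [if_pos ⟨rfl, hd⟩]
        exact if_pos hd
      · rw [if_neg (fun e => hd e.2)]
        exact if_neg hd
    · have e1 : wd H (mv H a g x0 m P q w x) b = wd H x.1 b := by
        unfold wd
        congr 1
        funext l
        exact hoff b l hb
      rw [e1]
      unfold chg
      rw [if_neg (fun e => hb e.1)]
  · rw [← s3]
    congr 1
    funext l
    exact hon l

/-- the changed input has the same computation, the same block and the same places -/
theorem mv_same (H : Hide Λ F (D → B) ρ h) (hah : a + h = Fintype.card Λ) (g : D → Equiv.Perm U) (x0 : U → B)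
    (m : ℕ) (P : Prog (B × Λ) F Z σ S) (q : Fin S) (w : U) (x : (B × Λ → F) × B)
    (hCF : CF g x0 (m + 1) (wd H x.1))
    (hm : pick (missD H a g x0 m P q w x.1) ∈ missD H a g x0 m P q w x.1) :
    missD H a g x0 m P q w (mv H a g x0 m P q w x) = missD H a g x0 m P q w x.1 ∧
    blk H a g x0 m P q w (mv H a g x0 m P q w x) = blk H a g x0 m P q w x.1 ∧
    rdset H a g x0 m P q w (mv H a g x0 m P q w x) = rdset H a g x0 m P q w x.1 := by
  obtain ⟨_, hask, hwd, _, _⟩ := mv_facts H hah g x0 m P q w x hCF hm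
  have hobs := obs_congr P x.1 (mv H a g x0 m P q w x) q hask
  have hval : ∀ u, val g x0 (wd H (mv H a g x0 m P q w x)) m u = val g x0 (wd H x.1) m u := by
    intro u
    rw [hwd]
    exact chg_val (wd H x.1, x.2) hCF m le_rfl u
  have h1 : missD H a g x0 m P q w (mv H a g x0 m P q w x) = missD H a g x0 m P q w x.1 := by
    unfold missD
    rw [hobs]
    simp only [hval]
  have h2 : blk H a g x0 m P q w (mv H a g x0 m P q w x) = blk H a g x0 m P q w x.1 := by
    unfold blk
    rw [h1, hval]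
  refine ⟨h1, h2, ?_⟩
  unfold rdset
  rw [h2, hobs]

end root

/-- B3 -/
theorem root_bound {U D B Λ F Z : Type} [Fintype U] [Fintype D] [DecidableEq D] [AddCommGroup B] [Fintype B] [Fintype Λ]
    [Fintype F] {σ S ρ h a : ℕ} [Nonempty D] (H : Hide Λ F (D → B) ρ h) (hah : a + h = Fintype.card Λ)
    (g : D → Equiv.Perm U)
    (x0 : U → B) (n : ℕ) (hn : 1 ≤ n) (P : Prog (B × Λ) F Z σ S) (q : Fin S) (w : U) (φ : B → Z) (p : ℕ)
    (hφ : ∀ z, Nat.card {b // φ b = z} ≤ p) :
    Nat.card {J : B × Λ → F // CF g x0 n (wd H J) ∧ P.Outputs J q (φ (val g x0 (wd H J) n w)) ∧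
      ∃ c, ∀ t, ¬ Rip a (obs P J q) (val g x0 (wd H J) (n - 1) (g c w)) t} * Fintype.card B ≤
      p * Nat.card (B × Λ → F) := by
  classical
  obtain ⟨m, rfl⟩ : ∃ m, n = m + 1 := ⟨n - 1, by omega⟩
  rw [Nat.add_sub_cancel, Nat.card_eq_fintype_card, Fintype.card_subtype, Nat.card_eq_fintype_card]
  set X : Finset (B × Λ → F) := Finset.univ.filter (fun J => CF g x0 (m + 1) (wd H J) ∧
    P.Outputs J q (φ (val g x0 (wd H J) (m + 1) w)) ∧
      ∃ c, ∀ t, ¬ Rip a (obs P J q) (val g x0 (wd H J) m (g c w)) t) with hX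
  have hXm : ∀ J ∈ X, CF g x0 (m + 1) (wd H J) ∧ P.Outputs J q (φ (val g x0 (wd H J) (m + 1) w)) ∧
      pick (missD H a g x0 m P q w J) ∈ missD H a g x0 m P q w J := by
    intro J hJ
    obtain ⟨h1, h2, h3⟩ := (Finset.mem_filter.mp hJ).2
    exact ⟨h1, h2, pick_mem h3⟩
  rw [← Finset.card_univ (α := B), ← Finset.card_product, ← Finset.card_univ (α := B × Λ → F)]
  apply Finset.card_le_mul_card_image_of_maps_to (f := mv H a g x0 m P q w) (fun _ _ => Finset.mem_univ _)
  intro J _
  obtain ⟨c, hc⟩ : ∃ c, c = pick (missD H a g x0 m P q w J) := ⟨_, rfl⟩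
  obtain ⟨b0, hb0⟩ : ∃ b0, b0 = blk H a g x0 m P q w J := ⟨_, rfl⟩
  obtain ⟨Y, hY⟩ : ∃ Y, Y = pickX h (rdset H a g x0 m P q w J) := ⟨_, rfl⟩
  -- facts on the members of the fibre
  have fact : ∀ x : (B × Λ → F) × B, x ∈ X ×ˢ (Finset.univ : Finset B) → mv H a g x0 m P q w x = J →
      Y.card = h ∧
      (∀ c', P.Asks x.1 q c' → x.1 c' = J c') ∧
      wd H J = chg g x0 m (g c w) c (wd H x.1, x.2) ∧
      (∀ c' : B × Λ, ¬ (c'.1 = b0 ∧ c'.2 ∈ Y) → J c' = x.1 c') ∧
      H.res Y (fun l => J (b0, l)) = H.res Y (fun l => x.1 (b0, l)) ∧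
      CF g x0 (m + 1) (wd H x.1) ∧ val g x0 (wd H x.1) m (g c w) = b0 := by
    intro x hx hJ
    obtain ⟨hCF, _, hpick⟩ := hXm _ (Finset.mem_product.mp hx).1
    obtain ⟨s1, s2, s3⟩ := mv_same H hah g x0 m P q w x hCF hpick
    obtain ⟨f1, f2, f3, f4, f5⟩ := mv_facts H hah g x0 m P q w x hCF hpick
    rw [hJ] at s1 s2 s3 f2 f3 f4 f5
    rw [← s1] at f3
    rw [← s2, ← s3] at f4 f5
    rw [← s3] at f1
    rw [← hY] at f1 f4 f5
    rw [← hb0] at f4 f5
    rw [← hc] at f3
    refine ⟨f1, f2, f3, f4, f5, hCF, ?_⟩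
    rw [hb0, s2, hc, s1]
    rfl
  rcases ((X ×ˢ (Finset.univ : Finset B)).filter (fun x => mv H a g x0 m P q w x = J)).eq_empty_or_nonempty with
    he | ⟨x', hx'⟩
  · rw [he]; simp
  · rw [Finset.mem_filter] at hx'
    obtain ⟨hx'X, hx'J⟩ := hx'
    obtain ⟨f0', f1', f2', f3', f4', f5', f6'⟩ := fact x' hx'X hx'J
    obtain ⟨_, hO', _⟩ := hXm _ (Finset.mem_product.mp hx'X).1
    have hp := hφ (φ (val g x0 (wd H x'.1) (m + 1) w))
    rw [Nat.card_eq_fintype_card, Fintype.card_subtype] at hp
    refine le_trans ?_ hp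
    have htop : ∀ x : (B × Λ → F) × B, x ∈ X ×ˢ (Finset.univ : Finset B) → mv H a g x0 m P q w x = J →
        val g x0 (wd H J) (m + 1) w = val g x0 (wd H x.1) (m + 1) w + x.2 := by
      intro x hx hJ
      obtain ⟨_, _, f2, _, _, f5, _⟩ := fact x hx hJ
      rw [f2]
      exact chg_top (wd H x.1, x.2) f5
    apply Finset.card_le_card_of_injOn (fun x => val g x0 (wd H x.1) (m + 1) w)
    · intro x hx
      rw [Finset.mem_coe, Finset.mem_filter] at hx
      obtain ⟨hxX, hxJ⟩ := hx
      obtain ⟨_, f1, _, _, _, _, _⟩ := fact x hxX hxJ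
      obtain ⟨_, hO, _⟩ := hXm _ (Finset.mem_product.mp hxX).1
      rw [Finset.mem_coe, Finset.mem_filter]
      refine ⟨Finset.mem_univ _, ?_⟩
      -- both computations are the computation on `J`
      have hJ1 := outputs_congr P x.1 J q f1 hO
      have hJ2 := outputs_congr P x'.1 J q f1' hO'
      exact outputs_unique P J q hJ1 hJ2
    · intro x hx y hy hxy
      rw [Finset.mem_coe, Finset.mem_filter] at hx hy
      obtain ⟨hxX, hxJ⟩ := hx
      obtain ⟨hyX, hyJ⟩ := hy
      obtain ⟨f0, f1, f2, f3, f4, f5, f6⟩ := fact x hxX hxJ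
      obtain ⟨k0, k1, k2, k3, k4, k5, k6⟩ := fact y hyX hyJ
      have hxy' : val g x0 (wd H x.1) (m + 1) w = val g x0 (wd H y.1) (m + 1) w := hxy
      have e2 : x.2 = y.2 := by
        have t1 := htop x hxX hxJ
        have t2 := htop y hyX hyJ
        rw [t1, hxy'] at t2
        exact add_left_cancel t2
      refine Prod.ext ?_ e2
      -- the words of the block
      have hw : wd H x.1 b0 = wd H y.1 b0 := by
        have g1 := congrFun f2 b0
        have g2 := congrFun k2 b0
        rw [g1] at g2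
        funext d
        have g3 := congrFun g2 d
        unfold chg at g3
        simp only [f6, k6, true_and] at g3
        by_cases hd : d = c
        · rw [if_pos hd, if_pos hd, e2] at g3
          exact add_right_cancel g3
        · rw [if_neg hd, if_neg hd] at g3
          exact g3
      have hblk : (fun l => x.1 (b0, l)) = fun l => y.1 (b0, l) := by
        apply H.inj Y f0
        · intro l hl
          have i1 := f3 (b0, l) (fun e => hl e.2)
          have i2 := k3 (b0, l) (fun e => hl e.2)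
          exact i1.symm.trans i2
        · exact hw
        · exact f4.symm.trans k4
      funext c'
      by_cases hc' : c'.1 = b0
      · have := congrFun hblk c'.2
        have hc'' : c' = (b0, c'.2) := Prod.ext hc' rfl
        rw [hc'']
        exact this
      · have i1 := f3 c' (fun e => hc' e.1)
        have i2 := k3 c' (fun e => hc' e.1)
        exact i1.symm.trans i2

end Pool.Agent.Helper78.NB
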